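import Pool.Agent.Y843.CH.Stm
import Pool.Agent.Helper923.PNT

/-!
# CH-MASS: the number of the products of three primes

`mass (hN : St_NUM) : St_MASS`.
-/

set_option autoImplicit false

namespace Pool.Agent.Y48.CH

open Finset Filter Pool.Agent.W23.DC Pool.Agent.Y660.RP Pool.Agent.Y843.CH

/-- the prime number theorem for the primes in `(x', x]` -/
theorem pnt_int (η : ℝ) (hη : 0 < η) : ∃ X₁ : ℝ, 2 ≤ X₁ ∧ ∀ x : ℝ, X₁ ≤ x → ∀ x' : ℝ, 0 ≤ x' →
    x' ≤ x → (Nat.primeCounting ⌊x⌋₊ : ℝ) - Nat.primeCounting ⌊x'⌋₊ ≤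
      ((x - x') + η * x) / Real.log x := by
  obtain ⟨δ, hδ0, hδη, hδ1⟩ : ∃ δ : ℝ, 0 < δ ∧ δ ≤ η / 4 ∧ δ ≤ 1 / 2 :=
    ⟨min (η / 4) (1 / 2), lt_min (by positivity) (by norm_num), min_le_left _ _, min_le_right _ _⟩
  have h1 := Metric.tendsto_atTop.1 Pool.Agent.Helper923.PNT.pi_tendsto δ hδ0
  obtain ⟨A, hA⟩ := h1
  set A' : ℝ := max A 3 with hA'
  have hA3 : 3 ≤ A' := le_max_right _ _
  refine ⟨max A' (4 * A' / η), (by linarith [le_max_left A' (4 * A' / η)]), ?_⟩
  intro x hx x' hx'0 hx'x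
  have hxA : A' ≤ x := (le_max_left _ _).trans hx
  have hxη : 4 * A' / η ≤ x := (le_max_right _ _).trans hx
  have hx0 : 0 < x := by linarith
  have hL : 0 < Real.log x := Real.log_pos (by linarith)
  have bd : ∀ y : ℝ, A' ≤ y → (1 - δ) * y ≤ (Nat.primeCounting ⌊y⌋₊ : ℝ) * Real.log y ∧
      (Nat.primeCounting ⌊y⌋₊ : ℝ) * Real.log y ≤ (1 + δ) * y := by
    intro y hy
    have hy0 : 0 < y := by linarith
    have h2 := hA y ((le_max_left _ _).trans hy)
    rw [Real.dist_eq, abs_lt] at h2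
    constructor
    · have h3 : 1 - δ ≤ (Nat.primeCounting ⌊y⌋₊ : ℝ) * Real.log y / y := by linarith
      rwa [le_div_iff₀ hy0] at h3
    · have h3 : (Nat.primeCounting ⌊y⌋₊ : ℝ) * Real.log y / y ≤ 1 + δ := by linarith
      rwa [div_le_iff₀ hy0] at h3
  rw [le_div_iff₀ hL, sub_mul]
  have hx1 := (bd x hxA).2
  by_cases hc : A' ≤ x'
  · have h2 := (bd x' hc).1
    have h3 : (Nat.primeCounting ⌊x'⌋₊ : ℝ) * Real.log x' ≤
        (Nat.primeCounting ⌊x'⌋₊ : ℝ) * Real.log x := by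
      refine mul_le_mul_of_nonneg_left ?_ (Nat.cast_nonneg _)
      exact Real.log_le_log (by linarith) hx'x
    nlinarith
  · have h2 : 0 ≤ (Nat.primeCounting ⌊x'⌋₊ : ℝ) * Real.log x := by positivity
    have h3 : A' ≤ η / 4 * x := by
      rw [div_le_iff₀ hη] at hxη
      linarith
    have h4 : δ * x ≤ η / 4 * x := mul_le_mul_of_nonneg_right hδη hx0.le
    have h5 : x' ≤ A' := (not_le.1 hc).le
    nlinarith

theorem card_primes_le {x x' : ℝ} (hx' : 0 ≤ x') (hxx : x' ≤ x) (S : Finset ℕ)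
    (hS : ∀ p ∈ S, p.Prime ∧ x' < (p : ℝ) ∧ (p : ℝ) ≤ x) :
    (S.card : ℝ) ≤ (Nat.primeCounting ⌊x⌋₊ : ℝ) - Nat.primeCounting ⌊x'⌋₊ := by
  have e : ∀ n : ℕ, Nat.primeCounting n = ((range (n + 1)).filter Nat.Prime).card := by
    intro n
    rw [Nat.primeCounting, Nat.primeCounting', Nat.count_eq_card_filter_range]
  have h1 : S ∪ (range (⌊x'⌋₊ + 1)).filter Nat.Prime ⊆ (range (⌊x⌋₊ + 1)).filter Nat.Prime := by
    intro p hp
    rw [mem_union] at hp
    rw [mem_filter, mem_range]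
    rcases hp with h | h
    · obtain ⟨h2, h3, h4⟩ := hS p h
      exact ⟨Nat.lt_succ_of_le (Nat.le_floor h4), h2⟩
    · rw [mem_filter, mem_range] at h
      exact ⟨lt_of_lt_of_le h.1 (Nat.succ_le_succ (Nat.floor_le_floor hxx)), h.2⟩
  have h2 : Disjoint S ((range (⌊x'⌋₊ + 1)).filter Nat.Prime) := by
    rw [Finset.disjoint_left]
    intro p hp hp2
    rw [mem_filter, mem_range] at hp2
    have h3 := (Nat.floor_lt hx').2 (hS p hp).2.1
    omega
  have h3 := card_le_card h1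
  rw [card_union_of_disjoint h2, ← e, ← e] at h3
  have h4 : (S.card : ℝ) + Nat.primeCounting ⌊x'⌋₊ ≤ Nat.primeCounting ⌊x⌋₊ := by exact_mod_cast h3
  linarith

theorem log4_le : Real.log (1 / (1 / 4)) ≤ 3 / 2 := by
  have h1 : Real.log (1 / (1 / 4)) = 2 * Real.log 2 := by
    rw [show (1 / (1 / 4) : ℝ) = 2 ^ 2 by norm_num, Real.log_pow]
    norm_num
  have h2 := Real.log_two_lt_d9
  rw [h1]
  linarith

/-- the sum over the second prime -/
theorem inner (hN : St_NUM) : ∃ N₀ : ℕ, ∀ N : ℕ, N₀ ≤ N → ∀ lam : ℝ, 1334 / 1000 ≤ lam →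
    lam ≤ 176 / 100 →
    ∑ q ∈ pr N (667 / 1000) (lam / 2 + 1 / 100000), 1 / ((q : ℝ) - 1) * (1 / (lam - tt N q)) ≤
      442 / 1000 - 5751 / 10000 * (2 - lam) + 1 / 10000 := by
  obtain ⟨η, hη0, HH⟩ := Pool.Agent.W505.DC.MI (1 / 4) (1 / 400000) (1 / 100000) 2 (by norm_num)
    (by norm_num) (by norm_num) (by norm_num) (by norm_num)
  obtain ⟨N₀, hN₀⟩ := mer_of Pool.Agent.W378.DC.MP (1 / 4) 1 η (by norm_num) le_rfl hη0
  refine ⟨N₀, fun N hNN lam h1 h2 => ?_⟩
  set bb : ℝ := lam / 2 + 1 / 100000 with hbb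
  have hb1 : 667 / 1000 ≤ bb := by rw [hbb]; linarith
  have hb2 : bb ≤ 1 := by rw [hbb]; linarith
  have hpos : ∀ x ∈ Set.Icc (667 / 1000 : ℝ) bb, 1 / 2 ≤ lam - x := by
    intro x hx
    have := hx.2
    rw [hbb] at this
    linarith
  have key := HH (pr N (1 / 4) 1) (tt N) (fun p => 1 / ((p : ℝ) - 1)) 1 le_rfl g_nonneg
    (hN₀ N hNN) (667 / 1000) bb (fun x => 1 / (lam - x)) (by norm_num) hb1 hb2
    (by
      refine ContinuousOn.div continuousOn_const (by fun_prop) fun x hx => ?_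
      have := hpos x hx
      linarith)
    (by
      intro x hx
      have := hpos x hx
      rw [abs_of_nonneg (by positivity), div_le_iff₀ (by linarith)]
      linarith)
    (by
      intro x hx y hy hxy
      have g1 := hpos x hx
      have g2 := hpos y hy
      have e : 1 / (lam - x) - 1 / (lam - y) = (x - y) / ((lam - x) * (lam - y)) := by
        field_simp
        ring
      have g3 : 1 / 4 ≤ (lam - x) * (lam - y) := by nlinarith
      rw [e, abs_div, abs_of_pos (show 0 < (lam - x) * (lam - y) by linarith),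
        div_le_iff₀ (by linarith)]
      linarith)
  rw [pr_sub N (1 / 4) 1 (667 / 1000) bb (by norm_num) hb2] at key
  have k1 := (abs_le.1 key).2
  have k2 := log4_le
  -- the integral
  have hint : ∫ x in (667 / 1000 : ℝ)..bb, 1 / (lam - x) / x =
      (1 / lam * (Real.log bb - Real.log (lam - bb))) -
        (1 / lam * (Real.log (667 / 1000) - Real.log (lam - 667 / 1000))) := by
    rw [intervalIntegral.integral_eq_sub_of_hasDerivAt
      (f := fun x => 1 / lam * (Real.log x - Real.log (lam - x)))]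
    · intro x hx
      rw [Set.uIcc_of_le hb1] at hx
      have g1 := hpos x hx
      have g2 : 0 < x := by linarith [hx.1]
      have d1 : HasDerivAt (fun x : ℝ => lam - x) (-1) x := by
        simpa using (hasDerivAt_id x).const_sub lam
      have d2 := d1.log (by linarith)
      have d3 := ((Real.hasDerivAt_log g2.ne').sub d2).const_mul (1 / lam)
      have e : 1 / (lam - x) / x = 1 / lam * (x⁻¹ - -1 / (lam - x)) := by
        have : lam - x ≠ 0 := by linarith
        have : lam ≠ 0 := by linarith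
        have := g2.ne'
        field_simp
        ring
      rw [e]
      exact d3
    · refine ContinuousOn.intervalIntegrable ?_
      rw [Set.uIcc_of_le hb1]
      refine ContinuousOn.div (ContinuousOn.div continuousOn_const (by fun_prop) fun x hx => ?_)
        continuousOn_id fun x hx => ?_
      · have := hpos x hx
        linarith
      · have := hx.1
        linarith
  rw [hint] at k1
  have hbb2 : 1 / 2 ≤ lam - bb := hpos bb ⟨hb1, le_rfl⟩
  have l1 : Real.log bb - Real.log (lam - bb) ≤ 4 / 100000 := by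
    have hp1 : 0 < bb := by linarith
    have hp2 : 0 < lam - bb := by linarith
    rw [← Real.log_div hp1.ne' hp2.ne']
    refine (Real.log_le_sub_one_of_pos (div_pos hp1 hp2)).trans ?_
    rw [sub_le_iff_le_add, div_le_iff₀ hp2]
    have : bb - (lam - bb) = 2 / 100000 := by rw [hbb]; ring
    nlinarith
  have l2 : Real.log (lam - 667 / 1000) - Real.log (667 / 1000) =
      Real.log ((lam - 667 / 1000) / (667 / 1000)) := by
    have hp : 0 < lam - 667 / 1000 := by linarith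
    exact (Real.log_div hp.ne' (by norm_num)).symm
  have l3 := hN.2.1 lam (by linarith) h2
  rw [← l2] at l3
  have l4 : 1 / lam * (Real.log bb - Real.log (lam - bb)) ≤ 4 / 100000 := by
    have hl : 1 / lam ≤ 1 := by
      rw [div_le_one (by linarith)]
      linarith
    have hl0 : 0 < 1 / lam := by
      apply div_pos one_pos
      linarith
    calc 1 / lam * (Real.log bb - Real.log (lam - bb)) ≤ 1 / lam * (4 / 100000) := by gcongr
      _ ≤ 1 * (4 / 100000) := by gcongr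
      _ = _ := one_mul _
  have l5 : 1 / lam * (Real.log (667 / 1000) - Real.log (lam - 667 / 1000)) =
      -(1 / lam * (Real.log (lam - 667 / 1000) - Real.log (667 / 1000))) := by ring
  rw [l5] at k1
  have k3 : ∑ q ∈ pr N (667 / 1000) bb, 1 / ((q : ℝ) - 1) * (1 / (lam - tt N q)) ≤
      1 / lam * (Real.log bb - Real.log (lam - bb)) -
        -(1 / lam * (Real.log (lam - 667 / 1000) - Real.log (667 / 1000))) +
      1 / 100000 * (2 * Real.log (1 / (1 / 4)) + 2) := by
    linarith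
  refine k3.trans ?_
  linarith

/-- the sum over the first prime -/
theorem outer (hN : St_NUM) : ∃ N₀ : ℕ, ∀ N : ℕ, N₀ ≤ N →
    ∑ q ∈ pr N (1 / 4) (667 / 1000), 1 / ((q : ℝ) - 1) * (4422 / 10000 - 5751 / 10000 * tt N q) ≤
      1949 / 10000 := by
  obtain ⟨η, hη0, HH⟩ := Pool.Agent.W505.DC.MI (1 / 4) (1 / 10000) (1 / 10000) 1 (by norm_num)
    (by norm_num) (by norm_num) (by norm_num) (by norm_num)
  obtain ⟨N₀, hN₀⟩ := mer_of Pool.Agent.W378.DC.MP (1 / 4) 1 η (by norm_num) le_rfl hη0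
  refine ⟨N₀, fun N hNN => ?_⟩
  have key := HH (pr N (1 / 4) 1) (tt N) (fun p => 1 / ((p : ℝ) - 1)) 1 le_rfl g_nonneg
    (hN₀ N hNN) (1 / 4) (667 / 1000) (fun x => 4422 / 10000 - 5751 / 10000 * x) (by norm_num)
    (by norm_num) (by norm_num) (by fun_prop)
    (by
      intro x hx
      rw [abs_le]
      constructor <;> linarith [hx.1, hx.2])
    (by
      intro x hx y hy hxy
      rw [abs_le] at hxy ⊢
      constructor <;> linarith [hxy.1, hxy.2])
  rw [pr_sub N (1 / 4) 1 (1 / 4) (667 / 1000) le_rfl (by norm_num)] at key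
  have k1 := (abs_le.1 key).2
  have k2 := log4_le
  have hint : ∫ x in (1 / 4 : ℝ)..(667 / 1000), (4422 / 10000 - 5751 / 10000 * x) / x =
      (4422 / 10000 * Real.log (667 / 1000) - 5751 / 10000 * (667 / 1000)) -
        (4422 / 10000 * Real.log (1 / 4) - 5751 / 10000 * (1 / 4)) := by
    rw [intervalIntegral.integral_eq_sub_of_hasDerivAt
      (f := fun x => 4422 / 10000 * Real.log x - 5751 / 10000 * x)]
    · intro x hx
      rw [Set.uIcc_of_le (by norm_num)] at hx
      have g2 : 0 < x := by linarith [hx.1]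
      have d3 := ((Real.hasDerivAt_log g2.ne').const_mul (4422 / 10000)).sub
        ((hasDerivAt_id x).const_mul (5751 / 10000))
      have e : (4422 / 10000 - 5751 / 10000 * x) / x =
          4422 / 10000 * x⁻¹ - 5751 / 10000 * 1 := by
        field_simp
      rw [e]
      exact d3
    · refine ContinuousOn.intervalIntegrable ?_
      rw [Set.uIcc_of_le (by norm_num)]
      refine ContinuousOn.div (by fun_prop) continuousOn_id fun x hx => ?_
      have := hx.1
      linarith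
  rw [hint] at k1
  have l1 : Real.log (667 / 1000) - Real.log (1 / 4) = Real.log (667 / 250) := by
    rw [← Real.log_div (by norm_num) (by norm_num)]
    norm_num
  have l2 := hN.2.2
  have l3 : Real.log (667 / 250) ≤ 667 / 250 - 1 := Real.log_le_sub_one_of_pos (by norm_num)
  rw [← l1] at l2 l3
  linarith

/-- the count for fixed `p₁`, `p₂` -/
theorem fiber {X₁ η a b : ℝ} (hX₁ : 2 ≤ X₁)
    (hpnt : ∀ x : ℝ, X₁ ≤ x → ∀ x' : ℝ, 0 ≤ x' → x' ≤ x →
      (Nat.primeCounting ⌊x⌋₊ : ℝ) - Nat.primeCounting ⌊x'⌋₊ ≤ ((x - x') + η * x) / Real.log x)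
    (ha : 0 ≤ a) (hab : a ≤ b) {p₁ p₂ : ℕ} (h1 : p₁.Prime) (h2 : p₂.Prime) (h3 : X₁ ≤ p₂)
    (h4 : (p₁ : ℝ) * p₂ * p₂ ≤ b) (S : Finset ℕ) (hS : ∀ p₃ ∈ S, p₃.Prime ∧
      a < (p₁ : ℝ) * p₂ * p₃ ∧ (p₁ : ℝ) * p₂ * p₃ ≤ b) :
    (S.card : ℝ) ≤ ((b - a) + η * b) / ((p₁ : ℝ) * p₂) / Real.log (b / ((p₁ : ℝ) * p₂)) := by
  have q1 : (0 : ℝ) < p₁ := by exact_mod_cast h1.pos
  have q2 : (0 : ℝ) < p₂ := by exact_mod_cast h2.pos
  have q : 0 < (p₁ : ℝ) * p₂ := mul_pos q1 q2
  have e1 := card_primes_le (x := b / ((p₁ : ℝ) * p₂)) (x' := a / ((p₁ : ℝ) * p₂))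
    (by positivity) (by gcongr) S (fun p hp => by
      obtain ⟨g1, g2, g3⟩ := hS p hp
      refine ⟨g1, ?_, ?_⟩
      · rw [div_lt_iff₀ q]
        linarith
      · rw [le_div_iff₀ q]
        linarith)
  have e2 := hpnt (b / ((p₁ : ℝ) * p₂)) (by
    refine h3.trans ?_
    rw [le_div_iff₀ q]
    linarith) (a / ((p₁ : ℝ) * p₂)) (by positivity) (by gcongr)
  refine e1.trans (e2.trans (le_of_eq ?_))
  congr 1
  field_simp

theorem mass (hN : St_NUM) : St_MASS := by
  classical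
  intro η hη
  obtain ⟨X₁, hX₁, hpnt⟩ := pnt_int η hη
  obtain ⟨N₁, hN₁⟩ := inner hN
  obtain ⟨N₂, hN₂⟩ := outer hN
  obtain ⟨N₃, hN₃⟩ := ev_rpow (667 / 1000) (by norm_num) X₁
  obtain ⟨N₄, hN₄⟩ := ev_log (10000 * (2 + |Real.log η|))
  refine ⟨max (max (max N₁ N₂) (max N₃ N₄)) 2, fun N hNN a b ha hab hηb hb4 => ?_⟩
  have hNN' : max (max N₁ N₂) (max N₃ N₄) ≤ N := (le_max_left _ _).trans hNN
  have hNN₁ : N₁ ≤ N := ((le_max_left _ _).trans (le_max_left _ _)).trans hNN'
  have hNN₂ : N₂ ≤ N := ((le_max_right _ _).trans (le_max_left _ _)).trans hNN'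
  have hNN₃ : N₃ ≤ N := ((le_max_left _ _).trans (le_max_right _ _)).trans hNN'
  have hNN₄ : N₄ ≤ N := ((le_max_right _ _).trans (le_max_right _ _)).trans hNN'
  have hN2 : 2 ≤ N := (le_max_right _ _).trans hNN
  have hNr : (1 : ℝ) < N := by exact_mod_cast (by omega : 1 < N)
  have hN0 : (0 : ℝ) < N := by linarith
  set L := Real.log N with hL
  have hLB : 10000 * (2 + |Real.log η|) < L := hN₄ N hNN₄
  have hL0 : 0 < L := by
    have := abs_nonneg (Real.log η)
    linarith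
  have hb0 : 0 < b := lt_of_lt_of_le (by positivity) hηb
  -- the size of `b`
  set Lam := Real.log b / L with hLam
  have hLam1 : Lam ≤ 2 + 1 / 10000 := by
    rw [hLam, div_le_iff₀ hL0]
    have h1 := Real.log_le_log hb0 hb4
    rw [Real.log_mul (by norm_num) (by positivity), Real.log_pow, ← hL] at h1
    have h2 : Real.log 4 ≤ 2 := by
      have h3 : Real.log 4 = 2 * Real.log 2 := by
        rw [show (4 : ℝ) = 2 ^ 2 by norm_num, Real.log_pow]
        norm_num
      have h4 := Real.log_two_lt_d9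
      linarith
    have h5 := abs_nonneg (Real.log η)
    push_cast at h1
    linarith
  have hLam2 : 2 - 1 / 10000 ≤ Lam := by
    rw [hLam, le_div_iff₀ hL0]
    have h1 := Real.log_le_log (by positivity) hηb
    rw [Real.log_mul hη.ne' (by positivity), Real.log_pow, ← hL] at h1
    have h5 := neg_abs_le (Real.log η)
    push_cast at h1
    linarith
  set M : ℝ := ((b - a) + η * b) / L with hM
  have hM0 : 0 ≤ M := by
    have : 0 ≤ b - a := by linarith
    positivity
  -- the sum over `p₂`, `p₃`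
  have key : ∀ p₁ ∈ pr N (1 / 4) (667 / 1000),
      (((Icc 1 ⌊b⌋₊ ×ˢ Icc 1 ⌊b⌋₊).filter (fun x : ℕ × ℕ => x.1.Prime ∧ x.2.Prime ∧
        (N : ℝ) ^ (667 / 1000 : ℝ) ≤ (x.1 : ℝ) ∧ x.1 ≤ x.2 ∧ a < (p₁ : ℝ) * x.1 * x.2 ∧
        (p₁ : ℝ) * x.1 * x.2 ≤ b)).card : ℝ) ≤
      M * (1 / ((p₁ : ℝ) - 1) * (4422 / 10000 - 5751 / 10000 * tt N p₁)) := by
    intro p₁ hp₁
    obtain ⟨-, hp1, ht1, ht2⟩ := mem_pr.1 hp₁
    have hp1r : (2 : ℝ) ≤ p₁ := by exact_mod_cast hp1.two_le
    set lam : ℝ := Lam - tt N p₁ with hlam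
    -- fibers over `p₂`
    set T : Finset ℕ := (Icc 1 ⌊b⌋₊).filter (fun p₂ : ℕ => p₂.Prime ∧
      (N : ℝ) ^ (667 / 1000 : ℝ) ≤ (p₂ : ℝ) ∧ (p₁ : ℝ) * p₂ * p₂ ≤ b) with hT
    have hT1 : ∀ p₂ ∈ T, p₂.Prime ∧ (N : ℝ) ^ (667 / 1000 : ℝ) ≤ (p₂ : ℝ) ∧
        (p₁ : ℝ) * p₂ * p₂ ≤ b ∧ 667 / 1000 ≤ tt N p₂ ∧ tt N p₂ ≤ lam / 2 ∧
        Real.log (b / ((p₁ : ℝ) * p₂)) = L * (lam - tt N p₂) := by
      intro p₂ hp₂
      rw [hT, mem_filter] at hp₂
      obtain ⟨-, g1, g2, g3⟩ := hp₂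
      have q1 : (0 : ℝ) < p₁ := by linarith
      have q2 : (0 : ℝ) < p₂ := by exact_mod_cast g1.pos
      have e1 : Real.log p₁ = L * tt N p₁ := by
        unfold tt
        rw [← hL]
        field_simp
      have e2 : Real.log p₂ = L * tt N p₂ := by
        unfold tt
        rw [← hL]
        field_simp
      have e3 : Real.log b = L * Lam := by
        rw [hLam]
        field_simp
      have g4 := Real.log_le_log (by positivity) g3
      rw [Real.log_mul (by positivity) q2.ne', Real.log_mul q1.ne' q2.ne', e1, e2, e3] at g4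
      have g5 : L * (tt N p₁ + tt N p₂ + tt N p₂) ≤ L * Lam := by linarith
      have g6 := le_of_mul_le_mul_left g5 hL0
      refine ⟨g1, g2, g3, (le_tt_iff hN2 g1 _).2 g2, ?_, ?_⟩
      · rw [hlam]
        linarith
      · rw [Real.log_div hb0.ne' (by positivity), Real.log_mul q1.ne' q2.ne', e1, e2, e3, hlam]
        ring
    have hcard : (((Icc 1 ⌊b⌋₊ ×ˢ Icc 1 ⌊b⌋₊).filter (fun x : ℕ × ℕ => x.1.Prime ∧ x.2.Prime ∧
        (N : ℝ) ^ (667 / 1000 : ℝ) ≤ (x.1 : ℝ) ∧ x.1 ≤ x.2 ∧ a < (p₁ : ℝ) * x.1 * x.2 ∧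
        (p₁ : ℝ) * x.1 * x.2 ≤ b)).card : ℝ) ≤
        ∑ p₂ ∈ T, M * (1 / ((p₁ : ℝ) - 1)) * (1 / ((p₂ : ℝ) - 1) * (1 / (lam - tt N p₂))) := by
      rw [Finset.card_eq_sum_card_fiberwise (f := Prod.fst) (t := T)]
      · push_cast
        refine sum_le_sum fun p₂ hp₂ => ?_
        obtain ⟨g1, g2, g3, g4, g5, g6⟩ := hT1 p₂ hp₂
        have hp2r : (2 : ℝ) ≤ p₂ := by exact_mod_cast g1.two_le
        have hX : X₁ ≤ p₂ := (hN₃ N hNN₃).le.trans g2
        set S : Finset (ℕ × ℕ) := ((Icc 1 ⌊b⌋₊ ×ˢ Icc 1 ⌊b⌋₊).filter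
          (fun x : ℕ × ℕ => x.1.Prime ∧ x.2.Prime ∧
          (N : ℝ) ^ (667 / 1000 : ℝ) ≤ (x.1 : ℝ) ∧ x.1 ≤ x.2 ∧ a < (p₁ : ℝ) * x.1 * x.2 ∧
          (p₁ : ℝ) * x.1 * x.2 ≤ b)).filter (fun x => x.1 = p₂) with hS
        have hSi : S.card = (S.image Prod.snd).card := by
          rw [card_image_of_injOn]
          intro x hx y hy hxy
          rw [mem_coe, hS, mem_filter] at hx hy
          exact Prod.ext (hx.2.trans hy.2.symm) hxy
        rw [hSi]
        refine (fiber hX₁ hpnt ha hab hp1 g1 hX g3 (S.image Prod.snd) ?_).trans ?_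
        · intro p₃ hp₃
          rw [mem_image] at hp₃
          obtain ⟨x, hx, rfl⟩ := hp₃
          rw [hS, mem_filter, mem_filter] at hx
          obtain ⟨⟨-, -, k1, -, -, k2, k3⟩, k4⟩ := hx
          rw [k4] at k2 k3
          exact ⟨k1, k2, k3⟩
        · rw [g6]
          have hlogpos : 0 < L * (lam - tt N p₂) := by
            rw [← g6]
            refine Real.log_pos ?_
            rw [lt_div_iff₀ (by positivity), one_mul]
            nlinarith
          have hlt : 0 < lam - tt N p₂ := (mul_pos_iff_of_pos_left hL0).1 hlogpos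
          have e1 : ((b - a) + η * b) / ((p₁ : ℝ) * p₂) / (L * (lam - tt N p₂)) =
              M * (1 / (p₁ : ℝ)) * (1 / (p₂ : ℝ) * (1 / (lam - tt N p₂))) := by
            rw [hM]
            field_simp
          rw [e1]
          have h1 : 1 / (p₁ : ℝ) ≤ 1 / ((p₁ : ℝ) - 1) :=
            one_div_le_one_div_of_le (by linarith) (by linarith)
          have h2 : 1 / (p₂ : ℝ) ≤ 1 / ((p₂ : ℝ) - 1) :=
            one_div_le_one_div_of_le (by linarith) (by linarith)
          have h3 : (0 : ℝ) < p₁ - 1 := by linarith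
          have h4 : (0 : ℝ) < p₂ - 1 := by linarith
          gcongr
      · intro x hx
        rw [mem_coe, mem_filter, mem_product] at hx
        obtain ⟨⟨k0, -⟩, k1, k2, k3, k4, k5, k6⟩ := hx
        rw [mem_coe, hT, mem_filter]
        refine ⟨k0, k1, k3, le_trans ?_ k6⟩
        have : (x.1 : ℝ) ≤ x.2 := by exact_mod_cast k4
        gcongr
    refine hcard.trans ?_
    rw [← Finset.mul_sum, mul_assoc]
    have hp3 : (0 : ℝ) < p₁ - 1 := by linarith
    refine mul_le_mul_of_nonneg_left (mul_le_mul_of_nonneg_left ?_ (by positivity)) hM0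
    by_cases hc : 1334 / 1000 ≤ lam
    · have hlam2 : lam ≤ 176 / 100 := by
        rw [hlam]
        linarith
      have h1 := hN₁ N hNN₁ lam hc hlam2
      have h2 : ∑ p₂ ∈ T, 1 / ((p₂ : ℝ) - 1) * (1 / (lam - tt N p₂)) ≤
          ∑ q ∈ pr N (667 / 1000) (lam / 2 + 1 / 100000),
            1 / ((q : ℝ) - 1) * (1 / (lam - tt N q)) := by
        refine sum_le_sum_of_subset_of_nonneg ?_ ?_
        · intro p₂ hp₂
          obtain ⟨g1, g2, g3, g4, g5, g6⟩ := hT1 p₂ hp₂
          rw [mem_pr]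
          refine ⟨⟨g1.one_lt.le, ?_⟩, g1, g4, by linarith⟩
          have h5 : tt N p₂ < 1 := by linarith
          have h6 := (tt_lt_iff hN2 g1 1).1 h5
          rw [Real.rpow_one] at h6
          have h7 : p₂ < N := by exact_mod_cast h6
          exact h7.le
        · intro q hq _
          obtain ⟨-, g1, g2, g3⟩ := mem_pr.1 hq
          have h5 : (2 : ℝ) ≤ q := by exact_mod_cast g1.two_le
          have h6 : (0 : ℝ) < q - 1 := by linarith
          have h7 : 0 < lam - tt N q := by linarith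
          positivity
      refine h2.trans (h1.trans ?_)
      have : 2 - lam = 2 - Lam + tt N p₁ := by rw [hlam]; ring
      rw [this]
      linarith
    · have hTe : T = ∅ := by
        rw [Finset.eq_empty_iff_forall_notMem]
        intro p₂ hp₂
        obtain ⟨g1, g2, g3, g4, g5, g6⟩ := hT1 p₂ hp₂
        apply hc
        linarith
      rw [hTe, sum_empty]
      linarith
  refine (sum_le_sum key).trans ?_
  rw [← Finset.mul_sum]
  have h1 := hN₂ N hNN₂
  refine (mul_le_mul_of_nonneg_left h1 hM0).trans ?_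
  rw [hM, div_mul_eq_mul_div]
  refine div_le_div_of_nonneg_right ?_ hL0.le
  have h2 : 0 ≤ b - a := by linarith
  have h3 : η * b ≤ η * (4 * (N : ℝ) ^ 2) := mul_le_mul_of_nonneg_left hb4 hη.le
  have h4 : 0 ≤ η * (N : ℝ) ^ 2 := by positivity
  nlinarith

end Pool.Agent.Y48.CH
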